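import Mathlib
import Pool.Agent.KS6_67.LT.Main

/-!
# MP_f7d7fe_co: in every dimension at least three there are primitive lattice tilings with any number
of tiles, and three is the least such dimension

For all `d ≥ 3` and all `n ≥ 1` there is a primitive lattice tiling of `ℤ^d` with exactly `n` lattice
translates.  For `d ≤ 2` every lattice tiling of `ℤ^d` with four lattice translates splits.

*Existence.*  A tiling of `ℤ^3` is a partition of a finite quotient into cosets.  For each of the
numbers `4, 6, 7, 9` there are two primitive partitions of `ℤ/2 × ℤ/2 × ℤ/8` into that many cosets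
which agree except for two parts (two cosets, `P₁ ∪ P₂ = P₁' ∪ P₂'`).  Divide `ℤ` into the `2 k + 1`
classes `3^i + 3^(i+1) ℤ`, `2 * 3^i + 3^(i+1) ℤ` (`i < k`) and `3^k ℤ`.  In the group
`ℤ/2 × ℤ/2 × ℤ/8 × ℤ/3^k`, a quotient of `ℤ^3`, take the products of the common parts with `ℤ/3^k`,
and over the `2 k + 1` classes use the parts `P₁, P₂` or `P₁', P₂'`, according to the parity of the
class.  A union of parts which is a coset is a product, because the orders of the two factors are
coprime; a coset in `ℤ/3^k` which contains two classes contains classes of both parities (with `x`, `y`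
it contains `2 y - x`), and so the tiling is primitive.  It has `c + 2 (2 k + 1)` tiles, `c = 2, 4, 5,
7`; this covers all `n` except `1, 2, 3, 5`, for which the cosets of a lattice of index `n` do.

*Four tiles.*  If one of the lattices has index two or three then it contains all the others.
Otherwise all indices are four, by Neumann's lemma on coverings by cosets; any two of the lattices
are contained in a lattice of index two, and as `ℤ^d`, `d ≤ 2`, has at most three lattices of index two,
with the third one determined by the other two, all four lattices are contained in one lattice of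
index two.
-/

set_option autoImplicit false

namespace Pool.Agent.Results.MP_f7d7fe_co.EveryDimensionFromThree

open Pool.Agent.KS6_67.LT

/-- For all `d ≥ 3` and `n ≥ 1` there is a primitive lattice tiling of `ℤ^d` with exactly `n` lattice
translates; for `d ≤ 2` there is none with four lattice translates. -/
theorem result :
    (∀ d n : ℕ, 3 ≤ d → 1 ≤ n → ∃ (v : Fin n → Z d) (L : Fin n → AddSubgroup (Z d)),
      IsTiling v L ∧ ¬ Splits v L) ∧
    ∀ d : ℕ, d ≤ 2 → ¬ ∃ (v : Fin 4 → Z d) (L : Fin 4 → AddSubgroup (Z d)),
      IsTiling v L ∧ ¬ Splits v L := by
  constructor
  · intro d n hd hn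
    obtain ⟨D, rfl⟩ : ∃ D, d = D + 3 := ⟨d - 3, by omega⟩
    exact hasPrimitive_all D n hn
  · rintro d hd ⟨v, L, hT, hS⟩
    exact hS (four_splits hd v L hT)

end Pool.Agent.Results.MP_f7d7fe_co.EveryDimensionFromThree
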